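import Pool.Agent.J6H54.LF.Fam
import Pool.Agent.R352.Q.Three

/-!
# The incomplete zeta values and the exponential integral, over simultaneously Liouville fields
-/

set_option autoImplicit false

open Filter Topology Set MeasureTheory

namespace Pool.Agent.J6H54.LF

open Pool.Agent.R352.E (clF EE EE_mem dl gz dl_one exp_rat_mem zt)
open Pool.Agent.R352.Q (Zk Rk W mem_of_Zk)
open Pool.Agent.N743.SS Pool.Agent.Q163.LE

variable {F : Subfield ℝ}

lemma W_fin (hF : SimLiouville F) (J : ℕ) {ι : Type*} [Fintype ι] (x : ι → ℚ)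
    (hinj : Function.Injective x) (hpos : ∀ i, 0 < x i) :
    AlgebraicIndependent F (fun o : Option (Fin J × ι) =>
      o.elim (Real.exp 1) (fun p => W p.1 (x p.2))) := by
  refine indep_of_span (EE_alg_Q hF J x hinj hpos) (fun o => ?_) le_rfl
  have he : Real.exp 1 ∈ clK F (range fun o : Option (Fin J × ι) =>
      o.elim (Real.exp 1) (fun p => W p.1 (x p.2))) := subset_clK _ ⟨none, rfl⟩
  cases o with
  | none => exact he
  | some p =>
    have hJ := p.1.2
    simp only [Option.elim]
    rw [← cl_cl]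
    refine mem_of_Zk (hpos p.2) ?_ ?_ (J := J) (by omega) (fun k hk hk' => ?_) (p.1 + 1) (by omega)
    · rw [cl_cl]
      exact he
    · rw [cl_cl]
      refine subset_clK _ ⟨some (⟨0, by omega⟩, p.2), ?_⟩
      simp [W]
    · rw [cl_cl]
      refine subset_clK _ ⟨some (⟨k - 1, by omega⟩, p.2), ?_⟩
      simp only [W]
      rw [if_neg (by omega), Nat.sub_add_cancel (by omega)]

/-- **Algebraic independence over `F`** of `e`, `E_1(x)` and the incomplete zeta values -/
theorem W_all (hF : SimLiouville F) : AlgebraicIndependent F (fun o : Option (ℕ × {x : ℚ // 0 < x}) =>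
    o.elim (Real.exp 1) (fun p => W p.1 (p.2 : ℚ))) := by
  classical
  refine algebraicIndependent_of_finite_type fun t ht => ?_
  let s : Finset (ℕ × {x : ℚ // 0 < x}) := ht.toFinset.biUnion fun o => o.elim ∅ (fun p => {p})
  have hs : ∀ p : ℕ × {x : ℚ // 0 < x}, some p ∈ t → p ∈ s := by
    intro p hp
    refine Finset.mem_biUnion.2 ⟨some p, ht.mem_toFinset.2 hp, ?_⟩
    simp
  let J : ℕ := s.sup Prod.fst + 1
  let Y : Finset {x : ℚ // 0 < x} := s.image Prod.snd
  have hJ : ∀ p : ℕ × {x : ℚ // 0 < x}, some p ∈ t → p.1 < J := fun p hp =>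
    Nat.lt_succ_of_le (Finset.le_sup (f := Prod.fst) (hs p hp))
  have hY : ∀ p : ℕ × {x : ℚ // 0 < x}, some p ∈ t → p.2 ∈ Y := fun p hp =>
    Finset.mem_image_of_mem _ (hs p hp)
  have h := W_fin hF J (ι := Y) (fun x => ((x : {x : ℚ // 0 < x}) : ℚ))
    (fun a b hab => Subtype.ext (Subtype.ext hab)) (fun x => x.1.2)
  let f : t → Option (Fin J × Y) := fun o =>
    match o with
    | ⟨none, _⟩ => none
    | ⟨some p, hp⟩ => some (⟨p.1, hJ p hp⟩, ⟨p.2, hY p hp⟩)
  have hf : Function.Injective f := by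
    rintro ⟨o, ho⟩ ⟨o', ho'⟩ hoo
    cases o with
    | none =>
      cases o' with
      | none => rfl
      | some p' => exact absurd hoo (by simp [f])
    | some p =>
      cases o' with
      | none => exact absurd hoo (by simp [f])
      | some p' =>
        simp only [f, Option.some.injEq, Prod.mk.injEq, Fin.mk.injEq, Subtype.mk.injEq] at hoo
        have : p = p' := Prod.ext hoo.1 hoo.2
        subst this
        rfl
  have h2 := h.comp f hf
  convert h2 using 1
  ext ⟨o, ho⟩
  cases o with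
  | none => rfl
  | some p => simp [f]

/-- the constants `γ + log x`, `ζ(l+1)` -/
noncomputable def Kc (l : ℕ) (x : ℚ) : ℝ :=
  if l = 0 then Real.eulerMascheroniConstant + Real.log x else zt (l + 1)

/-- the tails `δ(x)`, `R_(l+1)(x)` -/
noncomputable def Tl (l : ℕ) (x : ℚ) : ℝ := if l = 0 then gz x else Rk (l + 1) x

lemma W_mem {S : Set ℝ} (he : Real.exp 1 ∈ clK F S) {l : ℕ} {x : ℚ} (hx : 0 < x)
    (h1 : Kc l x ∈ clK F S) (h2 : Tl l x ∈ clK F S) : W l x ∈ clK F S := by
  have hx' : (0 : ℝ) < x := by exact_mod_cast hx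
  by_cases hl : l = 0
  · rw [Kc, if_pos hl] at h1
    rw [Tl, if_pos hl] at h2
    rw [W, if_pos hl, ← cl_cl]
    refine EE_mem hx (by rwa [cl_cl]) (by rwa [cl_cl]) 1 (fun k hk hk' => by omega) ?_
    rw [dl_one hx', cl_cl]
    exact h2
  · rw [Kc, if_neg hl] at h1
    rw [Tl, if_neg hl, Rk] at h2
    rw [W, if_neg hl]
    have : Zk (l + 1) (x : ℝ) = zt (l + 1) - (zt (l + 1) - Zk (l + 1) x) := by ring
    rw [this]
    exact (clK F S).sub_mem h1 h2

lemma W_sub (hF : SimLiouville F) (S : Finset (ℕ × ℚ)) (hS : ∀ p ∈ S, 0 < p.2) :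
    AlgebraicIndependent F (fun o : Option S => o.elim (Real.exp 1) (fun p => W p.1.1 p.1.2)) := by
  let f : Option S → Option (ℕ × {x : ℚ // 0 < x}) := Option.map fun p => (p.1.1, ⟨p.1.2, hS p.1 p.2⟩)
  have hf : Function.Injective f := by
    refine Option.map_injective ?_
    intro p p' h
    simp only [Prod.mk.injEq, Subtype.mk.injEq] at h
    exact Subtype.ext (Prod.ext h.1 h.2)
  have h2 := (W_all hF).comp f hf
  convert h2 using 1
  ext o
  cases o <;> simp [f]

/-- **Counting**: constants and tails -/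
theorem count_tails (hF : SimLiouville F) {r : ℕ} (y : Fin r → ℝ) (t : Finset (Fin r ⊕ (ℕ × ℚ)))
    (ht : ∀ i ∈ t, Sum.elim y (fun p => Tl p.1 p.2) i ∈ clK F {Real.exp 1})
    (ht' : ∀ p : ℕ × ℚ, Sum.inr p ∈ t → 0 < p.2 ∧ Kc p.1 p.2 ∈ clK F ({Real.exp 1} ∪ range y)) :
    t.card ≤ r := by
  classical
  let S : Finset (ℕ × ℚ) := t.biUnion fun i => Sum.elim (fun _ => ∅) (fun p => {p}) i
  have hSm : ∀ p : ℕ × ℚ, Sum.inr p ∈ t → p ∈ S := fun p hp => Finset.mem_biUnion.2 ⟨_, hp, by simp⟩
  have hSm' : ∀ p ∈ S, Sum.inr p ∈ t := by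
    intro p hp
    obtain ⟨i, hi, hxi⟩ := Finset.mem_biUnion.1 hp
    rcases i with i | q
    · simp at hxi
    · simp at hxi
      subst hxi
      exact hi
  have hAI := W_sub hF S (fun p hp => (ht' p (hSm' p hp)).1)
  let emb : Fin r ⊕ S → Fin r ⊕ (ℕ × ℚ) := Sum.map id Subtype.val
  have hemb : Function.Injective emb := Function.Injective.sumMap Function.injective_id Subtype.val_injective
  let S' : Finset (Fin r ⊕ S) := t.preimage emb hemb.injOn
  have hS'card : S'.card = t.card := by
    rw [Finset.card_preimage, Finset.filter_true_of_mem]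
    intro i hi
    rcases i with i | p
    · exact ⟨Sum.inl i, rfl⟩
    · exact ⟨Sum.inr ⟨p, hSm p hi⟩, rfl⟩
  have key := count_gen hAI (y := fun k => Sum.elim y (fun p => Tl p.1 p.2) (emb k))
    (a := Real.exp 1) S' (fun k hk => ht _ (Finset.mem_preimage.1 hk)) ?_
  · simp only [Fintype.card_option, Fintype.card_fin, Fintype.card_coe, Fintype.card_sum, hS'card] at key
    omega
  · intro o
    have he : Real.exp 1 ∈ clK F ({Real.exp 1} ∪
        range fun k => Sum.elim y (fun p => Tl p.1 p.2) (emb k)) := subset_clK _ (Or.inl rfl)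
    cases o with
    | none => exact he
    | some p =>
      refine W_mem he (ht' p.1 (hSm' p.1 p.2)).1 (clK_mono ?_ (ht' p.1 (hSm' p.1 p.2)).2)
        (subset_clK _ (Or.inr ⟨Sum.inr p, rfl⟩))
      refine union_subset_union_right _ ?_
      rintro _ ⟨i, rfl⟩
      exact ⟨Sum.inl i, rfl⟩

/-- a lower bound for the transcendence degree -/
theorem trdeg_tails (hF : SimLiouville F) {r : ℕ} (y : Fin r → ℝ) (S : Finset (ℕ × ℚ))
    (hS : ∀ p ∈ S, 0 < p.2 ∧ Kc p.1 p.2 ∈ clK F ({Real.exp 1} ∪ range y)) :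
    ((S.card + 1 : ℕ) : Cardinal) ≤ Algebra.trdeg F (IntermediateField.adjoin F
      ({Real.exp 1} ∪ range y ∪ (fun p : ℕ × ℚ => Tl p.1 p.2) '' (S : Set (ℕ × ℚ)))) := by
  have h := W_sub hF S (fun p hp => (hS p hp).1)
  have h2 := trdeg_ge h (A := {Real.exp 1} ∪ range y ∪
    (fun p : ℕ × ℚ => Tl p.1 p.2) '' (S : Set (ℕ × ℚ))) ?_
  · refine le_trans (le_of_eq ?_) h2
    simp
  · intro o
    have he : Real.exp 1 ∈ clK F ({Real.exp 1} ∪ range y ∪
        (fun p : ℕ × ℚ => Tl p.1 p.2) '' (S : Set (ℕ × ℚ))) := subset_clK _ (Or.inl (Or.inl rfl))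
    cases o with
    | none => exact he
    | some p =>
      exact W_mem he (hS p.1 p.2).1 (clK_mono subset_union_left (hS p.1 p.2).2)
        (subset_clK _ (Or.inr ⟨p.1, p.2, rfl⟩))

/-- **Independence of constants** whose tails are algebraic over `F(e)`; `z` lists real numbers, the
`i`-th of which, together with `e`, generates up to algebraic elements the constant `Kc (p i)` -/
theorem indep_const (hF : SimLiouville F) {ι : Type*} (p : ι → ℕ × ℚ) (hp : Function.Injective p)
    (hpos : ∀ i, 0 < (p i).2) (hT : ∀ i, Tl (p i).1 (p i).2 ∈ clK F {Real.exp 1}) (z : ι → ℝ)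
    (hz : ∀ i, Kc (p i).1 (p i).2 ∈ clK F {Real.exp 1, z i}) :
    AlgebraicIndependent F (fun o : Option ι => o.elim (Real.exp 1) z) := by
  classical
  refine algebraicIndependent_of_finite_type fun t ht => ?_
  let A : Set (Option ι) := insert none t
  have hA : A.Finite := ht.insert _
  have := hA.fintype
  have key : AlgebraicIndependent F (fun o : A => (o : Option ι).elim (Real.exp 1) z) := by
    let f : A → Option (ℕ × {x : ℚ // 0 < x}) := fun o =>
      (o : Option ι).map fun i => ((p i).1, ⟨(p i).2, hpos i⟩)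
    have hf : Function.Injective f := by
      intro o o' hoo
      refine Subtype.ext (Option.map_injective ?_ hoo)
      intro a b hab
      simp only [Prod.mk.injEq, Subtype.mk.injEq] at hab
      exact hp (Prod.ext hab.1 hab.2)
    refine indep_of_span ((W_all hF).comp f hf) (fun o => ?_) le_rfl
    have he : Real.exp 1 ∈ clK F (range fun o : A => (o : Option ι).elim (Real.exp 1) z) :=
      subset_clK _ ⟨⟨none, Or.inl rfl⟩, rfl⟩
    obtain ⟨o, ho⟩ := o
    cases o with
    | none => exact he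
    | some i =>
      change W (p i).1 ((p i).2 : ℝ) ∈ _
      refine W_mem he (hpos i) (clK_le ?_ (hz i)) (clK_le (singleton_subset_iff.2 he) (hT i))
      rintro w (rfl | rfl)
      · exact he
      · exact subset_clK _ ⟨⟨some i, ho⟩, rfl⟩
  have h2 := key.comp (fun o : t => (⟨o.1, Or.inr o.2⟩ : A)) (by
    intro a b hab
    have := congrArg Subtype.val hab
    exact Subtype.ext this)
  exact h2

end Pool.Agent.J6H54.LF
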