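import Pool.Agent.N743.SS.Multi
import Pool.Agent.Q163.LE.Meas

/-!
# Measures of algebraic independence and algebraic independence over simultaneously Liouville fields
-/

set_option autoImplicit false

namespace Pool.Agent.J6H54.LF

open Pool.Agent.N743.SS Pool.Agent.Q163.LE

/-- numbers with a measure of algebraic independence of polynomial type are algebraically independent
over every simultaneously Liouville field -/
theorem algInd_of_measM {F : Subfield ℝ} (hF : SimLiouville F) {ι : Type} {x : ι → ℝ}
    (hx : MeasM x) : AlgebraicIndependent F x := by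
  classical
  rw [algebraicIndependent_iff]
  intro p hp
  obtain ⟨κ, c, hκ, hc, h⟩ := hx p.totalDegree
  obtain ⟨s, hs⟩ : ∃ s, s = p.support := ⟨_, rfl⟩
  let e : Fin s.card ≃ s := s.equivFin.symm
  have hlin : LinearIndependent F (fun i : Fin s.card =>
      MvPolynomial.aeval x (MvPolynomial.monomial (e i).1 (1 : ℤ))) := by
    refine lin_indep hF _ ⌈κ⌉₊ c hc fun z H hz hH hzH => ?_
    obtain ⟨P, hP⟩ : ∃ P : MvPolynomial ι ℤ, P = ∑ i, MvPolynomial.monomial (e i).1 (z i) := ⟨_, rfl⟩
    have hcoef : ∀ i, P.coeff (e i).1 = z i := by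
      intro i
      rw [hP, MvPolynomial.coeff_sum, Finset.sum_eq_single i]
      · rw [MvPolynomial.coeff_monomial, if_pos rfl]
      · intro j _ hj
        rw [MvPolynomial.coeff_monomial, if_neg]
        intro h0
        exact hj (e.injective (Subtype.ext h0))
      · intro h0
        exact absurd (Finset.mem_univ _) h0
    have hcoef' : ∀ t, (∀ i, (e i).1 ≠ t) → P.coeff t = 0 := by
      intro t ht
      rw [hP, MvPolynomial.coeff_sum]
      refine Finset.sum_eq_zero fun i _ => ?_
      rw [MvPolynomial.coeff_monomial, if_neg (ht i)]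
    have hP0 : P ≠ 0 := by
      intro h0
      apply hz
      funext i
      rw [← hcoef i, h0, MvPolynomial.coeff_zero, Pi.zero_apply]
    have hdeg : P.totalDegree ≤ p.totalDegree := by
      refine Finset.sup_le fun t ht => MvPolynomial.le_totalDegree ?_
      rw [MvPolynomial.mem_support_iff] at ht
      by_contra hcon
      apply ht
      refine hcoef' t fun i hi => hcon ?_
      rw [← hi]
      exact hs.subset (e i).2
    have hmain := h P hP0 hdeg H (fun t => by
      by_cases ht : ∃ i, (e i).1 = t
      · obtain ⟨i, hi⟩ := ht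
        rw [← hi, hcoef]
        exact hzH i
      · push Not at ht
        rw [hcoef' t ht, Int.cast_zero, abs_zero]
        linarith)
    have e1 : MvPolynomial.aeval x P =
        ∑ i, (z i : ℝ) * MvPolynomial.aeval x (MvPolynomial.monomial (e i).1 (1 : ℤ)) := by
      rw [hP, map_sum]
      refine Finset.sum_congr rfl fun i _ => ?_
      rw [MvPolynomial.aeval_monomial, MvPolynomial.aeval_monomial]
      simp
    rw [← e1]
    refine le_trans ?_ hmain
    have hH0 : (0 : ℝ) < H := by linarith
    have h2 : H ^ κ ≤ H ^ ⌈κ⌉₊ := by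
      rw [← Real.rpow_natCast]
      exact Real.rpow_le_rpow_of_exponent_le hH (Nat.le_ceil κ)
    rw [Real.rpow_neg hH0.le, ← div_eq_mul_inv]
    exact div_le_div_of_nonneg_left hc.le (by positivity) h2
  have hall := Fintype.linearIndependent_iff.1 hlin (fun i => p.coeff (e i).1) (by
    rw [← hp]
    conv_rhs => rw [MvPolynomial.as_sum p, map_sum]
    rw [← hs]
    have h1 : ∀ g : (ι →₀ ℕ) → ℝ, ∑ t ∈ s, g t = ∑ i : Fin s.card, g (e i).1 := by
      intro g
      rw [← Finset.sum_coe_sort s, ← Equiv.sum_comp e]
    rw [h1]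
    refine Finset.sum_congr rfl fun i _ => ?_
    rw [MvPolynomial.aeval_monomial, MvPolynomial.aeval_monomial, Algebra.smul_def, map_one, one_mul])
  ext t
  rw [MvPolynomial.coeff_zero]
  by_cases ht : t ∈ s
  · have := hall (e.symm ⟨t, ht⟩)
    rw [e.apply_symm_apply] at this
    rw [this]
  · rw [hs] at ht
    rw [MvPolynomial.notMem_support_iff.1 ht]

end Pool.Agent.J6H54.LF
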