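import Pool.Agent.R352.E.Mat

/-!
# Algebraic independence of real numbers over an arbitrary field: the matroid, and its closure
-/

set_option autoImplicit false

open Set

namespace Pool.Agent.J6H54.LF

open Pool.Agent.R352.E (clF mem_clF subset_clF clF_mono)

variable (K : Subfield ℝ)

/-- the matroid of algebraic independence over the field `K` -/
noncomputable abbrev Mk : Matroid ℝ := AlgebraicIndependent.matroid K ℝ

lemma mem_cl_iff {S : Set ℝ} {x : ℝ} : x ∈ (Mk K).closure S ↔ IsAlgebraic (Algebra.adjoin K S) x := by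
  rw [AlgebraicIndependent.matroid_closure_eq]
  exact Iff.rfl

open scoped IntermediateField.algebraAdjoinAdjoin in
lemma mem_cl_iff' {S : Set ℝ} {x : ℝ} :
    x ∈ (Mk K).closure S ↔ IsAlgebraic (IntermediateField.adjoin K S) x := by
  rw [mem_cl_iff]
  exact IsFractionRing.isAlgebraic_iff (Algebra.adjoin K S) (IntermediateField.adjoin K S) ℝ

/-- the algebraic closure of `K(S)` in the real numbers -/
noncomputable def clK (S : Set ℝ) : Subfield ℝ where
  carrier := (Mk K).closure S
  mul_mem' := fun ha hb => (mem_cl_iff K).2 (((mem_cl_iff K).1 ha).mul ((mem_cl_iff K).1 hb))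
  one_mem' := (mem_cl_iff K).2 isAlgebraic_one
  add_mem' := fun ha hb => (mem_cl_iff K).2 (((mem_cl_iff K).1 ha).add ((mem_cl_iff K).1 hb))
  zero_mem' := (mem_cl_iff K).2 isAlgebraic_zero
  neg_mem' := fun ha => (mem_cl_iff K).2 ((mem_cl_iff K).1 ha).neg
  inv_mem' := fun _ ha => (mem_cl_iff K).2 ((mem_cl_iff K).1 ha).inv

variable {K}

lemma mem_clK {S : Set ℝ} {x : ℝ} : x ∈ clK K S ↔ IsAlgebraic (IntermediateField.adjoin K S) x :=
  mem_cl_iff' K

lemma subset_clK (S : Set ℝ) : S ⊆ clK K S := Matroid.subset_closure (Mk K) S (subset_univ _)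

lemma clK_mono {S T : Set ℝ} (h : S ⊆ T) : clK K S ≤ clK K T :=
  Matroid.closure_subset_closure (Mk K) h

lemma clK_le {S T : Set ℝ} (h : S ⊆ clK K T) : clK K S ≤ clK K T :=
  Matroid.closure_subset_closure_of_subset_closure h

lemma base_mem {S : Set ℝ} {x : ℝ} (h : x ∈ K) : x ∈ clK K S :=
  (mem_cl_iff K).2 (isAlgebraic_algebraMap (⟨x, Subalgebra.algebraMap_mem _ (⟨x, h⟩ : K)⟩ :
    Algebra.adjoin K S))

/-- the field `clK K S` is algebraically closed in the real numbers -/
lemma clK_closed {S : Set ℝ} {x : ℝ} (h : IsAlgebraic (clK K S) x) : x ∈ clK K S := by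
  -- pass to the field generated by the finitely many coefficients
  have h1 : (Mk K).closure (clK K S : Set ℝ) = (Mk K).closure S :=
    Matroid.closure_closure _ _
  change x ∈ (Mk K).closure S
  rw [← h1, mem_cl_iff]
  obtain ⟨p, hp0, hp⟩ := h
  let f : clK K S →+* Algebra.adjoin K (clK K S : Set ℝ) :=
    { toFun := fun y => ⟨y, Algebra.subset_adjoin y.2⟩
      map_one' := rfl
      map_mul' := fun _ _ => rfl
      map_zero' := rfl
      map_add' := fun _ _ => rfl }
  have hf : Function.Injective f := f.injective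
  refine ⟨p.map f, (Polynomial.map_ne_zero_iff hf).2 hp0, ?_⟩
  rw [← hp, Polynomial.aeval_def, Polynomial.aeval_def, Polynomial.eval₂_map]
  rfl

/-- closures over the rational numbers stay inside closures over `K` -/
lemma cl_cl {S : Set ℝ} : clF (clK K S : Set ℝ) = clK K S := by
  refine le_antisymm ?_ (subset_clF _)
  intro x hx
  rw [mem_clF] at hx
  refine clK_closed ?_
  obtain ⟨p, hp0, hp⟩ := hx
  have hle : ∀ y : ℝ, y ∈ IntermediateField.adjoin ℚ (clK K S : Set ℝ) → y ∈ clK K S := by
    intro y hy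
    have h1 : IntermediateField.adjoin ℚ (clK K S : Set ℝ) ≤
        (clK K S).toIntermediateField (fun q => SubfieldClass.ratCast_mem _ q) :=
      IntermediateField.adjoin_le_iff.2 (fun z hz => hz)
    exact h1 hy
  let f : IntermediateField.adjoin ℚ (clK K S : Set ℝ) →+* clK K S :=
    { toFun := fun y => ⟨y, hle y y.2⟩
      map_one' := rfl
      map_mul' := fun _ _ => rfl
      map_zero' := rfl
      map_add' := fun _ _ => rfl }
  have hf : Function.Injective f := f.injective
  refine ⟨p.map f, (Polynomial.map_ne_zero_iff hf).2 hp0, ?_⟩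
  rw [← hp, Polynomial.aeval_def, Polynomial.aeval_def, Polynomial.eval₂_map]
  rfl

/-- closures over `ℚ` are contained in closures over `K` -/
lemma clF_le_clK (S : Set ℝ) : clF S ≤ clK K S := by
  refine le_trans (clF_mono (subset_clK (K := K) S)) ?_
  rw [cl_cl]

lemma card_le {ι : Type*} [Fintype ι] {x : ι → ℝ} (hx : AlgebraicIndependent K x) {T : Set ℝ}
    (h : ∀ i, x i ∈ clK K T) : (Fintype.card ι : ℕ∞) ≤ (Mk K).eRk T := by
  have h1 : (Mk K).Indep (range x) := hx.to_subtype_range
  have h2 : range x ⊆ (Mk K).closure T := by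
    rintro _ ⟨i, rfl⟩
    exact h i
  calc (Fintype.card ι : ℕ∞) = (range x).encard := by
        rw [← image_univ, hx.injective.injOn.encard_image, encard_univ, ENat.card_eq_coe_fintype_card]
    _ ≤ (Mk K).eRk ((Mk K).closure T) := h1.encard_le_eRk_of_subset h2
    _ = (Mk K).eRk T := Matroid.eRk_closure_eq (Mk K) T

lemma card_le_card {ι κ : Type*} [Fintype ι] [Fintype κ] {x : ι → ℝ} (hx : AlgebraicIndependent K x)
    {y : κ → ℝ} (h : ∀ i, x i ∈ clK K (range y)) : Fintype.card ι ≤ Fintype.card κ := by
  have h1 := card_le hx h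
  have h2 : (range y).encard ≤ Fintype.card κ := by
    rw [← image_univ, ← ENat.card_eq_coe_fintype_card, ← encard_univ]
    exact encard_image_le _ _
  exact_mod_cast h1.trans ((Matroid.eRk_le_encard _ _).trans h2)

/-- as many elements spanning independent elements are independent -/
lemma indep_of_span {ι κ : Type*} [Fintype ι] [Fintype κ] {x : ι → ℝ}
    (hx : AlgebraicIndependent K x) {y : κ → ℝ} (h : ∀ i, x i ∈ clK K (range y))
    (hc : Fintype.card κ ≤ Fintype.card ι) : AlgebraicIndependent K y := by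
  have h1 := card_le hx h
  have h2 : (range y).encard ≤ Fintype.card κ := by
    rw [← image_univ, ← ENat.card_eq_coe_fintype_card, ← encard_univ]
    exact encard_image_le _ _
  have h3 : (Fintype.card κ : ℕ∞) ≤ (range y).encard :=
    (by exact_mod_cast hc : (Fintype.card κ : ℕ∞) ≤ Fintype.card ι).trans
      (h1.trans (Matroid.eRk_le_encard _ _))
  have hfin : (range y).Finite := finite_range y
  have h4 : (Mk K).Indep (range y) := by
    refine ((Mk K).isRkFinite_of_finite hfin).indep_of_encard_le_eRk ?_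
    exact h2.trans ((by exact_mod_cast hc : (Fintype.card κ : ℕ∞) ≤ Fintype.card ι).trans h1)
  have hinj : Function.Injective y := by
    rw [← injOn_univ]
    refine Finite.injOn_of_encard_image_eq finite_univ ?_
    rw [image_univ]
    refine le_antisymm (h2.trans ?_) ?_
    · rw [encard_univ, ENat.card_eq_coe_fintype_card]
    · rw [encard_univ, ENat.card_eq_coe_fintype_card]; exact h3
  exact (algebraicIndependent_subtype_range hinj).1 h4

/-- counting -/
lemma count_gen {ι κ : Type*} [Fintype ι] [Fintype κ] {x : ι → ℝ} (hx : AlgebraicIndependent K x)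
    {y : κ → ℝ} {a : ℝ} (S : Finset κ) (hS : ∀ k ∈ S, y k ∈ clK K {a})
    (h : ∀ i, x i ∈ clK K ({a} ∪ range y)) : Fintype.card ι + S.card ≤ 1 + Fintype.card κ := by
  classical
  have h1 : clK K ({a} ∪ range y) ≤ clK K ({a} ∪ y '' (Sᶜ : Finset κ)) := by
    refine clK_le ?_
    rintro z (hz | ⟨k, rfl⟩)
    · exact subset_clK _ (Or.inl hz)
    · by_cases hk : k ∈ S
      · exact clK_mono subset_union_left (hS k hk)
      · refine subset_clK _ (Or.inr ⟨k, ?_, rfl⟩)
        simpa using hk
  have h2 := card_le hx (fun i => h1 (h i))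
  have h3 : ({a} ∪ y '' (Sᶜ : Finset κ) : Set ℝ).encard ≤ ((1 + (Sᶜ : Finset κ).card : ℕ) : ℕ∞) := by
    refine (encard_union_le _ _).trans ?_
    rw [encard_singleton]
    have e : (((Sᶜ : Finset κ) : Set κ)).encard = ((Sᶜ : Finset κ).card : ℕ∞) :=
      encard_coe_eq_coe_finsetCard _
    rw [Nat.cast_add, Nat.cast_one, ← e]
    exact add_le_add le_rfl (encard_image_le _ _)
  have h4 : (Fintype.card ι : ℕ∞) ≤ ((1 + (Sᶜ : Finset κ).card : ℕ) : ℕ∞) :=
    h2.trans ((Matroid.eRk_le_encard _ _).trans h3)
  have h5 : Fintype.card ι ≤ 1 + (Sᶜ : Finset κ).card := by exact_mod_cast h4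
  rw [Finset.card_compl] at h5
  have h6 := Finset.card_le_univ S
  omega

lemma of_aeval_aux (L : IntermediateField K ℝ) {ι : Type*} (f : ι → L)
    (h : AlgebraicIndependent K (fun i => (f i : ℝ))) : AlgebraicIndependent K f := by
  have h1 : Function.Injective L.val := L.val.injective
  exact (L.val.algebraicIndependent_iff h1).1 h

/-- a lower bound for the transcendence degree of a generated field -/
lemma trdeg_ge {ι : Type*} [Fintype ι] {x : ι → ℝ} (hx : AlgebraicIndependent K x) {A : Set ℝ}
    (h : ∀ i, x i ∈ clK K A) :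
    (Fintype.card ι : Cardinal) ≤ Algebra.trdeg K (IntermediateField.adjoin K A) := by
  obtain ⟨I, hI⟩ := (Mk K).exists_isBasis A (subset_univ _)
  have h1 := card_le hx h
  rw [← hI.encard_eq_eRk] at h1
  obtain ⟨t, htI, htc⟩ := exists_subset_encard_eq h1
  have hfin : t.Finite := by
    rw [← encard_lt_top_iff, htc]
    exact ENat.natCast_lt_top _
  have hind : AlgebraicIndependent K (fun i : t => (i : ℝ)) := hI.indep.subset htI
  have htA : ∀ i : t, (i : ℝ) ∈ IntermediateField.adjoin K A := fun i =>
    IntermediateField.subset_adjoin K A (hI.subset (htI i.2))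
  let f : t → IntermediateField.adjoin K A := fun i => ⟨i, htA i⟩
  have hf : AlgebraicIndependent K f := of_aeval_aux (IntermediateField.adjoin K A) f hind
  have := hfin.fintype
  have h2 := hf.cardinalMk_le_trdeg
  refine le_trans (le_of_eq ?_) h2
  have h3 : ((Fintype.card ι : ℕ) : ℕ∞) = ((Fintype.card t : ℕ) : ℕ∞) := by
    rw [← htc, ← ENat.card_eq_coe_fintype_card, Set.encard]
  have h4 : Fintype.card ι = Fintype.card t := by exact_mod_cast h3
  rw [Cardinal.mk_fintype, h4]

end Pool.Agent.J6H54.LF
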