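import Pool.Agent.J6H54.LF.Alg
import Pool.Agent.J6H54.LF.Mat
import Pool.Agent.R352.E.Cnt

/-!
# Values of the exponential integrals over simultaneously Liouville fields
-/

set_option autoImplicit false

open Filter Topology Set MeasureTheory

namespace Pool.Agent.J6H54.LF

open Pool.Agent.R352.E (clF EE EE_mem dl gz dl_one exp_rat_mem zt zt_all con3 zt3_pos mem_zeta gval)
open Pool.Agent.N743.SS Pool.Agent.Q163.LE

variable {F : Subfield ℝ}

lemma ratF (x : ℚ) (S : Set ℝ) : (x : ℝ) ∈ clK F S := SubfieldClass.ratCast_mem _ _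

lemma of_powK {S : Set ℝ} {x : ℝ} {n : ℕ} (hn : n ≠ 0) (h : x ^ n ∈ clK F S) : x ∈ clK F S := by
  rw [← cl_cl] at h ⊢
  exact Pool.Agent.R352.E.of_pow hn h

lemma EE_alg_fin (hF : SimLiouville F) (J : ℕ) {k : ℕ} (x : Fin k → ℚ)
    (hinj : Function.Injective x) (hpos : ∀ i, 0 < x i) :
    AlgebraicIndependent F (fun o : Option (Fin J × Fin k) =>
      o.elim (Real.exp 1) (fun p => EE (p.1 + 1) (x p.2))) := by
  set q : ℕ := ∏ i, (x i).den with hqd
  have hq : 1 ≤ q := Nat.one_le_iff_ne_zero.2 (Finset.prod_ne_zero_iff.2 fun i _ => (x i).den_ne_zero)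
  have hq' : (q : ℝ) ≠ 0 := by positivity
  have hm : ∀ i, ∃ m : ℕ, 1 ≤ m ∧ (m : ℝ) / q = x i := by
    intro i
    obtain ⟨c, hc⟩ := Finset.dvd_prod_of_mem (fun i => (x i).den) (Finset.mem_univ i)
    have hc' : q = (x i).den * c := hc
    have hnum : 0 < (x i).num := Rat.num_pos.2 (hpos i)
    have hc0 : c ≠ 0 := by
      rintro rfl
      rw [mul_zero] at hc'
      omega
    refine ⟨(x i).num.toNat * c, ?_, ?_⟩
    · have h1 : 1 ≤ (x i).num.toNat := by omega
      exact Nat.one_le_iff_ne_zero.2 (Nat.mul_ne_zero (by omega) hc0)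
    · have h2 : (((x i).num.toNat : ℕ) : ℝ) = ((x i).num : ℝ) := by
        have : (((x i).num.toNat : ℕ) : ℤ) = (x i).num := Int.toNat_of_nonneg hnum.le
        exact_mod_cast this
      have h3 : ((x i : ℚ) : ℝ) = ((x i).num : ℝ) / ((x i).den : ℝ) := by
        exact_mod_cast (Rat.num_div_den (x i)).symm
      rw [hc', h3]
      push_cast
      rw [h2]
      have : ((x i).den : ℝ) ≠ 0 := by exact_mod_cast (x i).den_ne_zero
      have : (c : ℝ) ≠ 0 := by exact_mod_cast hc0
      field_simp
  choose mm hmm using hm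
  have hinj' : Function.Injective mm := by
    intro i j hij
    apply hinj
    have h1 := (hmm i).2
    rw [hij, (hmm j).2] at h1
    exact_mod_cast h1.symm
  have h := algInd_of_measM hF (measM_EE J k mm hinj' (fun i => (hmm i).1) hq)
  refine indep_of_span h (fun o => ?_) le_rfl
  cases o with
  | none =>
    simp only [Option.elim]
    refine of_powK (n := q) (by omega) ?_
    rw [← Real.exp_nat_mul]
    have h1 : (q : ℝ) * (-1 / q) = -1 := by field_simp
    rw [h1, Real.exp_neg]
    refine (clK F _).inv_mem (subset_clK _ ⟨none, rfl⟩)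
  | some p =>
    simp only [Option.elim]
    rw [(hmm p.2).2]
    exact subset_clK _ ⟨some p, rfl⟩

/-- **Algebraic independence** of `e` and the numbers `E_l(x)`, `x` positive rational, over `F` -/
theorem EE_alg_Q (hF : SimLiouville F) (J : ℕ) {ι : Type*} (x : ι → ℚ)
    (hinj : Function.Injective x) (hpos : ∀ i, 0 < x i) :
    AlgebraicIndependent F (fun o : Option (Fin J × ι) =>
      o.elim (Real.exp 1) (fun p => EE (p.1 + 1) (x p.2))) := by
  classical
  refine algebraicIndependent_of_finite_type fun t ht => ?_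
  let s : Finset ι := ht.toFinset.biUnion fun o => o.elim ∅ (fun p => {p.2})
  have hs : ∀ p : Fin J × ι, some p ∈ t → p.2 ∈ s := by
    intro p hp
    refine Finset.mem_biUnion.2 ⟨some p, ht.mem_toFinset.2 hp, ?_⟩
    simp
  let e := Fintype.equivFin s
  have h := EE_alg_fin hF J (k := Fintype.card s) (fun i => x (e.symm i)) (by
    intro i j hij
    have := hinj hij
    exact e.symm.injective (Subtype.ext this)) (fun i => hpos _)
  let f : t → Option (Fin J × Fin (Fintype.card s)) := fun o =>
    match o with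
    | ⟨none, _⟩ => none
    | ⟨some p, hp⟩ => some (p.1, e ⟨p.2, hs p hp⟩)
  have hf : Function.Injective f := by
    rintro ⟨o, ho⟩ ⟨o', ho'⟩ hoo
    cases o with
    | none =>
      cases o' with
      | none => rfl
      | some p' => exact absurd hoo (by simp [f])
    | some p =>
      cases o' with
      | none => exact absurd hoo (by simp [f])
      | some p' =>
        simp only [f, Option.some.injEq, Prod.mk.injEq] at hoo
        have h1 := e.injective hoo.2
        simp only [Subtype.mk.injEq] at h1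
        have : p = p' := Prod.ext hoo.1 h1
        subst this
        rfl
  have h2 := h.comp f hf
  convert h2 using 1
  ext ⟨o, ho⟩
  cases o with
  | none => rfl
  | some p => simp [f]

/-- **Algebraic independence over `F`** of `e` and all of the numbers `E_l(x)`, `l ≥ 1`, `x` positive
rational -/
theorem EE_alg_all (hF : SimLiouville F) :
    AlgebraicIndependent F (fun o : Option (ℕ × {x : ℚ // 0 < x}) =>
      o.elim (Real.exp 1) (fun p => EE (p.1 + 1) (p.2 : ℚ))) := by
  classical
  refine algebraicIndependent_of_finite_type fun t ht => ?_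
  let s : Finset ℕ := ht.toFinset.biUnion fun o => o.elim ∅ (fun p => {p.1})
  have hs : ∀ p : ℕ × {x : ℚ // 0 < x}, some p ∈ t → p.1 ∈ s := by
    intro p hp
    refine Finset.mem_biUnion.2 ⟨some p, ht.mem_toFinset.2 hp, ?_⟩
    simp
  let J : ℕ := s.sup id + 1
  have hJ : ∀ p : ℕ × {x : ℚ // 0 < x}, some p ∈ t → p.1 < J := fun p hp =>
    Nat.lt_succ_of_le (Finset.le_sup (f := id) (hs p hp))
  have h := EE_alg_Q hF J (ι := {x : ℚ // 0 < x}) (fun x => (x : ℚ)) Subtype.val_injective (fun x => x.2)
  let f : t → Option (Fin J × {x : ℚ // 0 < x}) := fun o =>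
    match o with
    | ⟨none, _⟩ => none
    | ⟨some p, hp⟩ => some (⟨p.1, hJ p hp⟩, p.2)
  have hf : Function.Injective f := by
    rintro ⟨o, ho⟩ ⟨o', ho'⟩ hoo
    cases o with
    | none =>
      cases o' with
      | none => rfl
      | some p' => exact absurd hoo (by simp [f])
    | some p =>
      cases o' with
      | none => exact absurd hoo (by simp [f])
      | some p' =>
        simp only [f, Option.some.injEq, Prod.mk.injEq, Fin.mk.injEq] at hoo
        have : p = p' := Prod.ext hoo.1 hoo.2
        subst this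
        rfl
  have h2 := h.comp f hf
  convert h2 using 1
  ext ⟨o, ho⟩
  cases o with
  | none => rfl
  | some p => simp [f]

/-- the counting theorem, for constants `con` which together with `γ + log x` and `δ_l(x)`
generate `E_l(x)` -/
theorem count_main (hF : SimLiouville F) {J c r : ℕ} (con : Fin c → ℝ) (y : Fin r → ℝ)
    (hJ : ∀ l : Fin J, ∀ x : ℚ, 0 < x → ∀ T : Set ℝ, (∀ i, con i ∈ clF T) → Real.exp 1 ∈ clF T →
      Real.eulerMascheroniConstant + Real.log x ∈ clF T → dl (l + 1) x ∈ clF T →
      EE (l + 1) x ∈ clF T)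
    (S : Finset (Fin c ⊕ Fin r ⊕ (Fin J × ℚ))) (hS : ∀ i ∈ S, gval J con y i ∈ clK F {Real.exp 1})
    (hX : ∀ p : Fin J × ℚ, Sum.inr (Sum.inr p) ∈ S → 0 < p.2 ∧
      Real.eulerMascheroniConstant + Real.log p.2 ∈ clK F ({Real.exp 1} ∪ range y)) :
    S.card ≤ c + r := by
  classical
  let X : Finset ℚ := S.biUnion fun i => Sum.elim (fun _ => ∅) (Sum.elim (fun _ => ∅) (fun p => {p.2})) i
  have hXm : ∀ p : Fin J × ℚ, Sum.inr (Sum.inr p) ∈ S → p.2 ∈ X := by
    intro p hp
    exact Finset.mem_biUnion.2 ⟨_, hp, by simp⟩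
  have hXp : ∀ x ∈ X, 0 < x ∧
      Real.eulerMascheroniConstant + Real.log x ∈ clK F ({Real.exp 1} ∪ range y) := by
    intro x hx
    obtain ⟨i, hi, hxi⟩ := Finset.mem_biUnion.1 hx
    rcases i with i | i | p
    · simp at hxi
    · simp at hxi
    · simp at hxi
      subst hxi
      exact hX p hi
  -- the family
  have hAI := EE_alg_Q hF J (ι := X) (fun x => (x : ℚ)) Subtype.val_injective
    (fun x => (hXp x x.2).1)
  let κ := Fin c ⊕ Fin r ⊕ (Fin J × X)
  let emb : κ → Fin c ⊕ Fin r ⊕ (Fin J × ℚ) := Sum.map id (Sum.map id (Prod.map id Subtype.val))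
  have hemb : Function.Injective emb := by
    refine Function.Injective.sumMap Function.injective_id
      (Function.Injective.sumMap Function.injective_id ?_)
    exact Function.Injective.prodMap Function.injective_id Subtype.val_injective
  let yy : κ → ℝ := fun k => gval J con y (emb k)
  let S' : Finset κ := S.preimage emb hemb.injOn
  have hS'card : S'.card = S.card := by
    rw [Finset.card_preimage, Finset.filter_true_of_mem]
    intro i hi
    rcases i with i | i | p
    · exact ⟨Sum.inl i, rfl⟩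
    · exact ⟨Sum.inr (Sum.inl i), rfl⟩
    · exact ⟨Sum.inr (Sum.inr (p.1, ⟨p.2, hXm p hi⟩)), rfl⟩
  have key := count_gen hAI (y := yy) (a := Real.exp 1) S'
    (fun k hk => hS _ (Finset.mem_preimage.1 hk)) ?_
  · simp only [Fintype.card_option, Fintype.card_prod, Fintype.card_fin, Fintype.card_coe, κ,
      Fintype.card_sum, hS'card] at key
    omega
  · intro o
    have he : Real.exp 1 ∈ clK F ({Real.exp 1} ∪ range yy) := subset_clK _ (Or.inl rfl)
    cases o with
    | none => exact he
    | some p =>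
      simp only [Option.elim]
      rw [← cl_cl]
      refine hJ p.1 p.2 (hXp p.2 p.2.2).1 _ (fun i => ?_) ?_ ?_ ?_
      · rw [cl_cl]
        exact subset_clK _ (Or.inr ⟨Sum.inl i, rfl⟩)
      · rw [cl_cl]
        exact he
      · rw [cl_cl]
        refine clK_mono ?_ (hXp p.2 p.2.2).2
        refine union_subset_union_right _ ?_
        rintro _ ⟨i, rfl⟩
        exact ⟨Sum.inr (Sum.inl i), rfl⟩
      · rw [cl_cl]
        exact subset_clK _ (Or.inr ⟨Sum.inr (Sum.inr p), rfl⟩)

/-- the counting theorem with zeta values -/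
theorem count_zeta (hF : SimLiouville F) {c r : ℕ} (y : Fin r → ℝ)
    (S : Finset (Fin (c + 2) ⊕ Fin r ⊕ (Fin (2 * c + 4) × ℚ)))
    (hS : ∀ i ∈ S, gval (2 * c + 4) (con3 c) y i ∈ clK F {Real.exp 1})
    (hX : ∀ p : Fin (2 * c + 4) × ℚ, Sum.inr (Sum.inr p) ∈ S → 0 < p.2 ∧
      Real.eulerMascheroniConstant + Real.log p.2 ∈ clK F ({Real.exp 1} ∪ range y)) :
    S.card ≤ c + 2 + r :=
  count_main hF (con3 c) y (fun l x hx _ hcon he h0 hd => mem_zeta hcon he l x hx h0 hd) S hS hX

end Pool.Agent.J6H54.LF
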