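import Mathlib
import Pool.Agent.Q163.LE.Sim

/-!
# An example: the field generated by the numbers `∑ a_n 10 ^ (-n!)`
-/

set_option autoImplicit false

open Filter Topology
open scoped Nat

namespace Pool.Agent.J6H54.LF

open Pool.Agent.Q163.LE

/-- the scale `n!` -/
noncomputable def Tf (n : ℕ) : ℝ := (n ! : ℝ)

lemma Tf_tendsto : Tendsto Tf atTop atTop := by
  refine tendsto_natCast_atTop_atTop.comp ?_
  exact tendsto_atTop_mono (fun n => Nat.self_le_factorial n) tendsto_id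

lemma liou_ap (a : ℕ → ℤ) (B : ℝ) (hB : ∀ n, |(a n : ℝ)| ≤ B) :
    Ap Tf (∑' n, (a n : ℝ) / 10 ^ n !) := by
  have hB0 : 0 ≤ B := (abs_nonneg _).trans (hB 0)
  have h10 : (1 : ℝ) < 10 := by norm_num
  have hsL := LiouvilleNumber.summable h10
  have hbd : ∀ n, ‖(a n : ℝ) / 10 ^ (n !)‖ ≤ B * (1 / 10 ^ n !) := by
    intro n
    rw [Real.norm_eq_abs, abs_div, abs_of_pos (by positivity : (0 : ℝ) < 10 ^ n !), div_eq_mul_one_div]
    exact mul_le_mul_of_nonneg_right (hB n) (by positivity)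
  have hs : Summable (fun n => (a n : ℝ) / 10 ^ n !) := Summable.of_norm_bounded (hsL.mul_left B) hbd
  obtain ⟨x, hx⟩ : ∃ x, x = ∑' n, (a n : ℝ) / 10 ^ n ! := ⟨_, rfl⟩
  rw [← hx]
  have hl : 0 < Real.log 10 := Real.log_pos h10
  -- the remainder
  have hrem : ∀ n, |x - ∑ j ∈ Finset.range (n + 1), (a j : ℝ) / 10 ^ (j !)| ≤ B * (1 / (10 ^ n !) ^ n) := by
    intro n
    have h1 := hs.sum_add_tsum_nat_add (n + 1)
    rw [← hx] at h1
    have h2 : x - ∑ j ∈ Finset.range (n + 1), (a j : ℝ) / 10 ^ j ! =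
        ∑' i, (a (i + (n + 1)) : ℝ) / 10 ^ (i + (n + 1)) ! := by linarith
    rw [h2, ← Real.norm_eq_abs]
    have h3 : Summable (fun i => B * (1 / (10 : ℝ) ^ (i + (n + 1)) !)) :=
      ((summable_nat_add_iff (n + 1)).2 hsL).mul_left B
    have h4 := tsum_of_norm_bounded h3.hasSum (fun i => hbd (i + (n + 1)))
    refine h4.trans ?_
    rw [tsum_mul_left]
    refine mul_le_mul_of_nonneg_left ?_ hB0
    have h5 := LiouvilleNumber.remainder_lt n (by norm_num : (2 : ℝ) ≤ 10)
    exact h5.le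
  refine ⟨Real.log 10 + (|x| + B), by positivity, fun E => ?_⟩
  have hlog : ∀ n : ℕ, Real.exp (Real.log 10 * Tf n) = 10 ^ n ! := by
    intro n
    rw [Tf, mul_comm, Real.exp_nat_mul, Real.exp_log (by norm_num)]
  have hev : ∀ᶠ n : ℕ in atTop, B + E + 1 ≤ Real.log 10 * n := by
    have h1 : Tendsto (fun n : ℕ => Real.log 10 * (n : ℝ)) atTop atTop :=
      tendsto_natCast_atTop_atTop.const_mul_atTop hl
    exact h1.eventually_ge_atTop _
  filter_upwards [hev, Tf_tendsto.eventually_ge_atTop 1] with n hn hT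
  have hq : (0 : ℝ) < 10 ^ n ! := by positivity
  obtain ⟨s, hs'⟩ : ∃ s, s = ∑ j ∈ Finset.range (n + 1), (a j : ℝ) / 10 ^ j ! := ⟨_, rfl⟩
  have hremn := hrem n
  rw [← hs'] at hremn
  have hp : (((∑ j ∈ Finset.range (n + 1), a j * 10 ^ ((n !) - (j !)) : ℤ)) : ℝ) = s * 10 ^ n ! := by
    rw [hs', Finset.sum_mul]
    push_cast
    refine Finset.sum_congr rfl fun j hj => ?_
    have hj' : j ! ≤ n ! := Nat.factorial_le (by have := Finset.mem_range.1 hj; omega)
    have h1 : (10 : ℝ) ^ n ! = 10 ^ ((n !) - (j !)) * 10 ^ j ! := by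
      rw [← pow_add, Nat.sub_add_cancel hj']
    rw [h1]
    field_simp
  have hT0 : 0 ≤ Tf n := by linarith
  have hle1 : 1 / ((10 : ℝ) ^ n !) ^ n ≤ 1 := by
    rw [div_le_one (by positivity)]
    exact one_le_pow₀ (one_le_pow₀ (by norm_num))
  have hsb : |s| ≤ |x| + B := by
    have h1 : s = x - (x - s) := by ring
    rw [h1]
    refine (abs_sub _ _).trans (add_le_add le_rfl (hremn.trans ?_))
    exact mul_le_of_le_one_right hB0 hle1
  have hexp : |x| + B ≤ Real.exp ((|x| + B) * Tf n) := by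
    have h1 := Real.add_one_le_exp ((|x| + B) * Tf n)
    have h2 : (|x| + B) * 1 ≤ (|x| + B) * Tf n := mul_le_mul_of_nonneg_left hT (by positivity)
    linarith
  refine ⟨∑ j ∈ Finset.range (n + 1), a j * 10 ^ ((n !) - (j !)), 10 ^ n !, by positivity, ?_, ?_, ?_⟩
  · rw [hp, abs_mul, abs_of_pos hq, add_mul, Real.exp_add, hlog, mul_comm]
    exact mul_le_mul_of_nonneg_left (hsb.trans hexp) hq.le
  · push_cast
    rw [abs_of_pos hq, add_mul, Real.exp_add, hlog]
    refine le_mul_of_one_le_right hq.le ?_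
    exact Real.one_le_exp (by positivity)
  · push_cast at hp ⊢
    rw [hp, mul_div_assoc, div_self hq.ne', mul_one]
    refine hremn.trans ?_
    have h1 : 1 / ((10 : ℝ) ^ n !) ^ n = Real.exp (-(Real.log 10 * n * Tf n)) := by
      rw [← hlog, ← Real.exp_nat_mul, Real.exp_neg, one_div]
      congr 2
      ring
    rw [h1]
    have h2 : B ≤ Real.exp (B * Tf n) := by
      have h3 := Real.add_one_le_exp (B * Tf n)
      have h4 : B * 1 ≤ B * Tf n := mul_le_mul_of_nonneg_left hT hB0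
      linarith
    calc B * Real.exp (-(Real.log 10 * n * Tf n))
        ≤ Real.exp (B * Tf n) * Real.exp (-(Real.log 10 * n * Tf n)) :=
          mul_le_mul_of_nonneg_right h2 (Real.exp_nonneg _)
      _ = Real.exp ((B - Real.log 10 * n) * Tf n) := by rw [← Real.exp_add]; ring_nf
      _ ≤ Real.exp (-(E * Tf n)) := by
          refine Real.exp_le_exp.2 ?_
          have h5 : B - Real.log 10 * n ≤ -E := by linarith
          calc (B - Real.log 10 * n) * Tf n ≤ (-E) * Tf n := mul_le_mul_of_nonneg_right h5 hT0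
            _ = _ := by ring

/-- the numbers `∑ a_n 10 ^ (-n!)` (`a` a bounded sequence of integers) lie in one simultaneously
Liouville field -/
theorem liou_field : SimLiouville (Subfield.closure {x : ℝ | ∃ (a : ℕ → ℤ) (B : ℤ), (∀ n, |a n| ≤ B) ∧
    x = ∑' n, (a n : ℝ) / 10 ^ n !}) := by
  intro s hs
  refine sim_apField Tf Tf_tendsto s fun x hx => ?_
  have hle : Subfield.closure {x : ℝ | ∃ (a : ℕ → ℤ) (B : ℤ), (∀ n, |a n| ≤ B) ∧
      x = ∑' n, (a n : ℝ) / 10 ^ n !} ≤ ApField Tf Tf_tendsto := by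
    rw [Subfield.closure_le]
    rintro y ⟨a, B, hB, rfl⟩
    exact liou_ap a B (fun n => by exact_mod_cast hB n)
  exact hle (hs x hx)

end Pool.Agent.J6H54.LF
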